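import Pool.Agent.Z705.Fin2
import Pool.Agent.Z705.Cnt
import Pool.Agent.Y809.BSD14.Tam3
import Pool.Agent.Y809.BSD14.Selb
import Pool.Agent.Y248.BSD14.Omega
import Pool.Agent.Y814.BSD14.SEL
import Pool.Agent.Y641.BSD14.T2
import Pool.Agent.Y641.BSD14.T7

/-!
# The leading-term formula of Birch and Swinnerton-Dyer modulo two for the twists, positive and
negative, of `X_0(14)` by products of arbitrarily many split primes and doubly inert primes

`E_D : Y² = X (X² + 13 D X + 128 D²)` is the quadratic twist of `X_0(14)` by `D`, with the global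
minimal equation `WM D` (`D = 1 mod 4` squarefree, prime to `7`). Its field of `2`-division is
`ℚ(√-7)`. Here `D` is the product of the primes in `P` (congruent to `1` modulo `8` and split in this
field) and of the prime discriminants `± q`, `q ∈ T` (inert in this field and in `ℚ(√2)`), the number
of the `q` congruent to `5` modulo `8` being even, and `D < 0` if `3 ∣ D`. The analytic
order of `Ш(E_D)`, that is `L(E_D, 1) #E_D(ℚ)_tors² / (Ω ∏ c_l)`, is the square of an integer `y` up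
to a `2`-adic unit, and `y` is odd if and only if `E_D(ℚ)` is finite and `Ш(E_D)[2] = 0`, if and only
if an explicit matrix over `𝔽₂` is nonsingular; in this case this is the exact `2`-part of the
formula.
-/

set_option autoImplicit false

open Finset

namespace Pool.Agent.Results.MP_92892c_nt.FormulaModuloTwoBothSigns

open Pool.Agent.W97.MT (affCount IsGloballyMinimal)
open Pool.Agent.Y700 (WM Omega tamProd IsL EQ)

/-- primes inert in `ℚ(√-7)` and in `ℚ(√2)` -/
def Inert (q : ℕ) : Prop :=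
  q.Prime ∧ (q % 8 = 3 ∨ q % 8 = 5) ∧ (q % 7 = 3 ∨ q % 7 = 5 ∨ q % 7 = 6)

/-- primes congruent to `1` modulo `8` that split in `ℚ(√-7)` -/
def Split (p : ℕ) : Prop := p.Prime ∧ p % 8 = 1 ∧ (p % 7 = 1 ∨ p % 7 = 2 ∨ p % 7 = 4)

/-- the product of the prime discriminants `± q`, `q ∈ T` -/
def disc (T : Finset ℕ) : ℤ := ∏ q ∈ T, if q % 4 = 1 then (q : ℤ) else -q

open Classical in
/-- the matrix over `𝔽₂` with rows and columns indexed by the primes in `P`: off the diagonal the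
entry at `(p, p')` is `1` if `p'` is not a square modulo `p` and `0` otherwise; on the diagonal it
is the number of the primes in `P` different from `p` which are not squares modulo `p`, plus `1` if
the number of points of `E_m` modulo `p` is not divisible by `8` -/
noncomputable def R (P : Finset ℕ) (m : ℤ) : Matrix P P (ZMod 2) := Matrix.of fun i j =>
  if i = j then
    (((P.filter fun p' : ℕ => p' ≠ (i : ℕ) ∧ ¬ IsSquare (p' : ZMod (i : ℕ))).card : ZMod 2) +
      if 8 ∣ affCount (WM m) (i : ℕ) + 1 then 0 else 1)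
  else if IsSquare (((j : ℕ)) : ZMod (i : ℕ)) then 0 else 1

/-- `E(ℚ)` is finite and `Ш(E/ℚ)` has no element of order two -/
def RankZeroShaTwo (W : WeierstrassCurve ℤ) : Prop :=
  Finite (EQ W).toAffine.Point ∧ ∀ x : Pool.Agent.TH841.SH.D.Sha (EQ W), 2 • x = 0 → x = 0

/-- For the curve with the global minimal equation `W`: there are a `2`-adic unit `w ∈ ℚ` and an
integer `y` with `L(E, 1) = w y² Ω ∏ c_l / #E(ℚ)_tors²`, and `y` is odd if and only if `E(ℚ)` is
finite and `Ш(E/ℚ)[2] = 0`; in this case `L(E, 1)` is not zero and `Ш(E/ℚ)[2^∞] = 0`. -/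
def FormulaModTwo (W : WeierstrassCurve ℤ) : Prop :=
  IsGloballyMinimal W ∧ (∃ f, IsL W f) ∧ ∃ y : ℤ, (Odd y ↔ RankZeroShaTwo W) ∧
    (Odd y → ∀ (n : ℕ) (x : Pool.Agent.TH841.SH.D.Sha (EQ W)), 2 ^ n • x = 0 → x = 0) ∧
    ∀ f, IsL W f → (Odd y → f 1 ≠ 0) ∧ ∃ w : ℚ, w ≠ 0 ∧ padicValRat 2 w = 0 ∧
      f 1 = (((w : ℝ) * (y : ℝ) ^ 2 * (Omega W * tamProd W /
        (Nat.card (AddCommGroup.torsion (EQ W).toAffine.Point) : ℝ) ^ 2) : ℝ) : ℂ)

theorem result (P T : Finset ℕ) (hP : ∀ p ∈ P, Split p) (hT : ∀ q ∈ T, Inert q)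
    (hne : (P ∪ T).Nonempty) :
    ((Even (T.filter fun q => q % 8 = 5).card ∧ (3 ∈ T → disc T < 0)) →
      FormulaModTwo (WM ((∏ p ∈ P, (p : ℤ)) * disc T))) ∧
    (RankZeroShaTwo (WM ((∏ p ∈ P, (p : ℤ)) * disc T)) ↔ (R P (disc T)).det ≠ 0) ∧
    ∀ e : ℕ, (e = 3 ∨ e = 5) →
      {q : ℕ | Inert q ∧ q % 8 = e ∧ q ∉ T ∧ (R P (disc (insert q T))).det ≠ 0}.Infinite := by
  classical
  have hP' : ∀ p ∈ P, Y17.N.Sp p := hP
  have hdisc : ∀ S : Finset ℕ, disc S = Y687.DD S := fun S => rfl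
  have hR : ∀ m : ℤ, R P m = Y17.N.matC P (fun p => 8 ∣ affCount (WM m) p + 1) := by
    intro m
    unfold R Y17.N.matC
    ext i j
    simp only [Matrix.of_apply]
    by_cases hij : i = j
    · rw [if_pos hij, if_pos hij]
      congr 1
      by_cases h8 : 8 ∣ affCount (WM m) i + 1
      · rw [if_pos h8, if_pos h8]
      · rw [if_neg h8, if_neg h8]
    · rw [if_neg hij, if_neg hij]
  have hdet : ∀ S : Finset ℕ, (∀ q ∈ S, Inert q) →
      ((R P (disc S)).det ≠ 0 ↔ Odd (Z700.Yd Z700.lres (Y687.N.xrZ (Y687.DD S)) P)) := by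
    intro S hS
    rw [hR, hdisc]
    refine Z705.mat_iff hP' hS fun p hp => ?_
    have h8 := (hP p hp).2.1
    rw [Z705.cnt_affCountZ (hP p hp).1 (by omega) (by omega) (Z705.DD_mod4 hS)
      (Z705.not_dvd_DD hP' hS hp)]
  have hprP : (∏ p ∈ P, (p : ℤ)) = ((Z700.pr P : ℕ) : ℤ) := by
    unfold Z700.pr
    push_cast
    rfl
  have hEq : RankZeroShaTwo (WM ((∏ p ∈ P, (p : ℤ)) * disc T)) ↔
      Odd (Z700.Yd Z700.lres (Y687.N.xrZ (Y687.DD T)) P) := by
    have h1 := Z704.equiv Z702.f_COC Z702.f_LOT Z702.f_COB Z702.f_TOR Z702.f_LQ Z702.f_LG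
      Z702.f_LP Z702.f_LIN Z702.f_TRN Z705.f_SELA Z705.f_SELB (Z705.cnd hP' hT)
    rw [hprP, hdisc]
    unfold RankZeroShaTwo
    rw [h1]
    refine and_congr Iff.rfl (forall_congr' fun x => ?_)
    rw [two_nsmul]
  refine ⟨fun hor => ?_, ?_, ?_⟩
  · obtain ⟨c1, c2, y, c3, c4⟩ := Z705.full_both Z702.f_COC Z702.f_LOT Z702.f_COB Z702.f_TOR
      Z702.f_LQ Z702.f_LG Z702.f_LP Z702.f_LIN Z702.f_TRN Z702.f_TORS Z705.f_SELA Z705.f_SELB
      Pool.Agent.Y809.BSD14.t_E0 Pool.Agent.Y809.BSD14.t_TIN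
      Pool.Agent.Y809.BSD14.t_TSP Pool.Agent.Y641.BSD14.t2 Pool.Agent.Y641.BSD14.t7
      Pool.Agent.Y248.BSD14.t Pool.Agent.Y814.BSD14.t_MIN Z705.f_OMEGA Z705.f_VAL Z705.f_TAM
      Z700.f_SYM Z705.f_DIAG Z705.f_IND Y17.N.f_BIL Y17.N.f_T8 Z705.f_IND3G
      Z705.f_INDQG hP' hT hne ⟨Nat.even_iff.1 hor.1, hor.2⟩ _ rfl
    rw [hprP, hdisc]
    have hy : Odd y ↔ RankZeroShaTwo (WM (((Z700.pr P : ℕ) : ℤ) * Y687.DD T)) := by
      rw [c3]
      refine and_congr Iff.rfl (forall_congr' fun x => ?_)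
      rw [two_nsmul]
    refine ⟨c1, c2, y, hy, fun ho => ?_, fun f hf => ⟨fun ho => (c4 f hf).1 ?_, (c4 f hf).2⟩⟩
    · have hY : Odd (Z700.Yd Z700.lres (Y687.N.xrZ (Y687.DD T)) P) := by
        rw [← hEq, hprP, hdisc]
        exact hy.1 ho
      exact Z705.sha_inf Z705.f_SELA Z705.f_SELB (Z705.cnd hP' hT) hY
    · rintro rfl
      exact absurd ho (by decide)
  · rw [hEq]
    exact (hdet T hT).symm
  · intro e he
    refine (Z705.exi (T := T) hP' hT he).mono ?_
    rintro q ⟨h1, h2, h3, h4⟩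
    have hI : ∀ r ∈ insert q T, Inert r := by
      intro r hr
      rcases Finset.mem_insert.1 hr with rfl | hr
      · exact h1
      · exact hT r hr
    exact ⟨h1, h2, h3, (hdet _ hI).2 h4⟩

end Pool.Agent.Results.MP_92892c_nt.FormulaModuloTwoBothSigns
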