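import Pool.Agent.Y703.LA.Mom2
import Pool.Agent.Y19.QT.Fams

/-!
# The moments of the predicted order of the Tate-Shafarevich groups of quadratic twists

Let `E_d : y² = x³ + a d² x + b d³`, `d` squarefree, be the quadratic twists of
`E : y² = x³ + a x + b`. Let `W` be a global minimal equation of `E_d`, `L` its Hasse-Weil
`L`-function (all Euler factors included), `r` the rank, `Ω = ∫_{E_d(ℝ)} |dx/(2y + a₁x + a₃)|` the real
period, `Reg` the regulator, `L^an = L^{(r)}(E_d, 1) / (r! Ω Reg)`. The formula of Birch and
Swinnerton-Dyer says that `S_d := L^an · (#E_d(ℚ)_tors)²` is `#Sha(E_d) · Tam(E_d)`.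

For the twists of every curve with `j`-invariant `0` or `1728` and of `X_0(11)` and `X_0(14)`, and for
every `κ < 2`,

`∑_{|d| ≤ X squarefree} (|S_d| / |d|^{1/2})^κ ≤ C X (log X)^A`.

In particular the average of `|S_d|` over `|d| ≤ X` is at most `X^{1/2} (log X)^{A'}`; and
`|S_d| ≤ |d|^{1/2} (log |d|)^{A'}` for all but `O_B(X / (log X)^B)` of the `d`, and
`|S_d| ≤ |d|^{1/2 + ε}` for all but `O(X^{1 - ε})`, which is what the Lindelöf hypothesis gives. There is
no restriction to rank `0` or `1`, the ranks are not assumed to be equal to the orders of vanishing,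
and nothing is assumed.

Proof. For each `r` the mean square over `d` of the `L`-functions on the disc of radius
`≍ (r + 1) / log X` around `s = 1` (quadratic large sieve, `Pool.Agent.Y703.QT12`) and Cauchy's estimate
bound the mean square of `L^{(r)}(E_d, 1) / r!`; with uniform lower bounds for the local factors, for
the real period (`Ω ≥ c |d|^{-1/2}`), for the canonical height (`ĥ(P) ≥ c log |d|` for all points of
infinite order of all twists) and, by Minkowski's theorem, for the regulator
(`Reg ≥ (c log |d| / r)^r`), one gets `∑_d (|S_d| / (|d|^{1/2} K^{r_d}))² ≤ C X (log X)^A`. By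
`r_d ≤ C + 12 ω(d)` (descent), the moments of `ω(d)` and Young's inequality, the factors `K^{r_d}` cost
only a power of `log X` in the moments of order `κ < 2`.
-/

set_option autoImplicit false

namespace Pool.Agent.Results.MP_92892c_nt.ShaMoments

open Pool.Agent.Y703.LA Pool.Agent.Y19.QT

/-- The bounds for the moments of the family of the quadratic twists of `y² = x³ + a x + b`. `sqf X` is
the set of the squarefree integers `d`, `|d| ≤ X`. -/
def Moments (a b : ℤ) : Prop := ∀ κ : ℝ, 0 < κ → κ < 2 → ∃ (C : ℝ) (A : ℕ), ∀ X : ℕ, 3 ≤ X →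
  ∀ D : ∀ d : sqf X, BSDData a b d,
    ∑ d : sqf X, (‖(D d).ShaTam‖ / √|((d : ℤ) : ℝ)|) ^ κ ≤ C * X * Real.log X ^ A

/-- **The moments of the predicted `#Sha · Tam` of the quadratic twists** of every elliptic curve with
`j`-invariant `0` or `1728` and of every quadratic twist of `X_0(11)` and `X_0(14)`. -/
theorem result (a b : ℤ) (h : Fam a b) : Moments a b :=
  fun _ h0 h2 => moments h.disc h.data.1 h0 h2

end Pool.Agent.Results.MP_92892c_nt.ShaMoments
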