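import Pool.Agent.Y695.FinB
import Pool.Agent.Y695.FinP5

/-!
The `2`-part of the leading-term formula of Birch and Swinnerton-Dyer for the curves
`y² = x³ - 11 D x² - D² x`, where one prime divisor `p` of `D`, congruent to `1` or `9` modulo `20`,
splits completely in the `2`-division fields of the curve and of the isogenous curve. Either `D` is the
product of `p` and of the numbers `-q` for arbitrarily many primes `q` congruent to `3` or `7` modulo
`20`, or `D` is the product of `5` or `-5`, of `p` and of an even number of such primes `q`.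
-/

set_option autoImplicit false

namespace Pool.Agent.Results.MP_92892c_nt.TwoPartOneSplitPrime

open Pool.Agent.Y695
open Pool.Agent.W97.MT (IsGloballyMinimal)

theorem result (S : Finset ℕ) (hS : ∀ q ∈ S, q.Prime ∧ (q % 20 = 3 ∨ q % 20 = 7))
    (p : ℕ) (hp : p.Prime) (hp20 : p % 20 = 1 ∨ p % 20 = 9)
    (hw : ∀ w z : ℤ, (p : ℤ) ∣ w ^ 2 - 11 * w - 1 → ¬ (p : ℤ) ∣ z ^ 2 - w * ∏ q ∈ S, (-(q : ℤ)))
    (D : ℤ) (hD : D = p * ∏ q ∈ S, (-(q : ℤ)) ∨ (Even S.card ∧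
      (D = 5 * p * ∏ q ∈ S, (-(q : ℤ)) ∨ D = -5 * p * ∏ q ∈ S, (-(q : ℤ))))) :
    IsGloballyMinimal (ED D) ∧ ∃ Λ : ℂ → ℂ, IsLFun (ED D) Λ ∧ Λ 1 ≠ 0 ∧
      Finite (EQ (ED D)).toAffine.Point ∧ ShaTwoTrivial (EQ (ED D)) ∧
      ∃ u : ℚ, Odd u.num ∧ Odd u.den ∧
        Λ 1 = ((u * (Om (ED D) * tamProd (ED D) /
          (Nat.card (EQ (ED D)).toAffine.Point : ℝ) ^ 2) : ℝ) : ℂ) := by
  rcases hD with hD | ⟨he, hD⟩
  · exact main_split hS hp hp20 hw (by rw [hD]; ring)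
  · have e1 : ∏ q ∈ S, (-(q : ℤ)) = ∏ q ∈ S, (q : ℤ) := by
      rw [Finset.prod_neg, he.neg_one_pow, one_mul]
    rw [e1] at hD hw
    exact main_fiveP hS he hp hp20 hw hD

end Pool.Agent.Results.MP_92892c_nt.TwoPartOneSplitPrime
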