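import Pool.Agent.Y695.FinF
import Pool.Agent.Y695.FinFN
import Pool.Agent.Y695.FinG

/-!
The `2`-part of the leading-term formula of Birch and Swinnerton-Dyer for the curves
`y² = x³ - 11 D x² - D² x`, for two kinds of `D`: the product of `5` or `-5`, of one prime `b`
congruent to `13` or `17` modulo `20` and of an even number of primes congruent to `3` or `7` modulo
`20`; and the product of `-10` and of an odd number of primes congruent to `3` or `7` modulo `20`.
-/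

set_option autoImplicit false

namespace Pool.Agent.Results.MP_92892c_nt.TwoPartTwentyTwists

open Pool.Agent.Y695
open Pool.Agent.W97.MT (IsGloballyMinimal)

theorem result (S : Finset ℕ) (hS : ∀ q ∈ S, q.Prime ∧ (q % 20 = 3 ∨ q % 20 = 7)) (D : ℤ)
    (hD : (Even S.card ∧ ∃ b : ℕ, b.Prime ∧ (b % 20 = 13 ∨ b % 20 = 17) ∧
        (D = 5 * b * ∏ q ∈ S, (q : ℤ) ∨ D = -5 * b * ∏ q ∈ S, (q : ℤ))) ∨
      (Odd S.card ∧ D = -10 * ∏ q ∈ S, (q : ℤ))) :
    IsGloballyMinimal (ED D) ∧ ∃ Λ : ℂ → ℂ, IsLFun (ED D) Λ ∧ Λ 1 ≠ 0 ∧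
      Finite (EQ (ED D)).toAffine.Point ∧ ShaTwoTrivial (EQ (ED D)) ∧
      ∃ u : ℚ, Odd u.num ∧ Odd u.den ∧
        Λ 1 = ((u * (Om (ED D) * tamProd (ED D) /
          (Nat.card (EQ (ED D)).toAffine.Point : ℝ) ^ 2) : ℝ) : ℂ) := by
  rcases hD with ⟨he, b, hb, hb20, hD | hD⟩ | ⟨ho, hD⟩
  · exact main_five hS he hb hb20 hD
  · exact main_fiveN hS he hb hb20 hD
  · exact main_forty hS ho hD

end Pool.Agent.Results.MP_92892c_nt.TwoPartTwentyTwists
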